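import Pool.Agent.helper84.QI.Spec

set_option autoImplicit false

namespace Pool.Agent.QI

theorem SYC_mem {G : Type} [Group G] (u g : G) (K : Subgroup G)
    (hK : K ≤ Subgroup.centralizer ({g⁻¹ * u * g} : Set G)) (x : G) (hx : x ∈ K) :
    g * x * g⁻¹ ∈ Subgroup.centralizer ({u} : Set G) := by
  have h := hK hx
  rw [Subgroup.mem_centralizer_iff] at h ⊢
  intro y hy
  rw [Set.mem_singleton_iff] at hy
  subst hy
  have h1 := h (g⁻¹ * y * g) rfl
  have h2 : g * (g⁻¹ * y * g * x) * g⁻¹ = g * (x * (g⁻¹ * y * g)) * g⁻¹ := by rw [h1]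
  have e1 : g * (g⁻¹ * y * g * x) * g⁻¹ = y * (g * x * g⁻¹) := by group
  have e2 : g * (x * (g⁻¹ * y * g)) * g⁻¹ = g * x * g⁻¹ * y := by group
  rw [e1, e2] at h2
  exact h2

theorem SYC : SYC_stmt := by
  intro G _ u hP g K hK hp
  let f : K →* Subgroup.centralizer ({u} : Set G) :=
    { toFun := fun x => ⟨g * (x : G) * g⁻¹, SYC_mem u g K hK x x.2⟩
      map_one' := by
        apply Subtype.ext
        simp
      map_mul' := by
        intro x y
        apply Subtype.ext
        simp [mul_assoc] }
  have hf : Function.Injective f := by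
    intro x y h
    have h1 : g * (x : G) * g⁻¹ = g * (y : G) * g⁻¹ := congrArg Subtype.val h
    apply Subtype.ext
    exact mul_left_cancel (mul_right_cancel h1)
  have hr : IsPGroup 2 f.range := hp.of_surjective f.rangeRestrict f.rangeRestrict_surjective
  obtain ⟨P, hfP⟩ := hr.exists_le_sylow
  have hc : IsCyclic P := hP P
  have hmem : ∀ x : K, f x ∈ (P : Subgroup (Subgroup.centralizer ({u} : Set G))) := fun x => hfP ⟨x, rfl⟩
  let f' : K →* (P : Subgroup (Subgroup.centralizer ({u} : Set G))) := f.codRestrict _ hmem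
  have hf' : Function.Injective f' := by
    intro x y h
    apply hf
    exact congrArg Subtype.val h
  have hc' : IsCyclic (P : Subgroup (Subgroup.centralizer ({u} : Set G))) := hc
  exact isCyclic_of_injective f' hf'

end Pool.Agent.QI
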